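import Mathlib

/-!
# Project PU, piece PU-11: integrability of `(1 + ⟪a, u⟫)^(-m)` on the sphere of dimension `2m+1`

Caps `{1 + t < 8 · 4^(-k)}` have measure `O(2^(-k(2m+1)))` (they lie in a box in an orthonormal basis
starting with `a`); sum over the scales.
-/

open MeasureTheory Set Metric Filter Module
open scoped NNReal Topology RealInnerProductSpace ENNReal Real ContDiff Manifold Pointwise

namespace Pool.Agent.Helper19.PU

variable {E : Type*} [NormedAddCommGroup E] [InnerProductSpace ℝ E]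

/-- the volume of a cylinder. -/
private lemma pu11_cyl [FiniteDimensional ℝ E] [MeasurableSpace E] [BorelSpace E]
    (m : ℕ) (hfr : finrank ℝ E = 2 * m + 2) {a : E} (ha : ‖a‖ = 1) {ρ : ℝ} (hρ : 0 ≤ ρ) :
    (volume : Measure E) {x | |⟪a, x⟫| ≤ 1 ∧ ‖x‖ ^ 2 - ⟪a, x⟫ ^ 2 ≤ ρ ^ 2}
      ≤ ENNReal.ofReal 2 * ENNReal.ofReal (2 * ρ) ^ (2 * m + 1) := by
  classical
  have hv : Orthonormal ℝ (({0} : Set (Fin (2 * m + 1 + 1))).domRestrict
      (fun _ => a : Fin (2 * m + 1 + 1) → E)) := by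
    constructor
    · rintro ⟨i, hi⟩
      exact ha
    · rintro ⟨i, hi⟩ ⟨j, hj⟩ hij
      exact absurd (Subtype.ext ((mem_singleton_iff.1 hi).trans (mem_singleton_iff.1 hj).symm)) hij
  obtain ⟨b, hb⟩ := Orthonormal.exists_orthonormalBasis_extension_of_card_eq
    (𝕜 := ℝ) (E := E) (ι := Fin (2 * m + 1 + 1)) (by simp [hfr]) hv
  have hb0 : b 0 = a := hb 0 (mem_singleton _)
  have hmp : MeasurePreserving (fun x : E => (WithLp.ofLp (b.repr x) : Fin (2 * m + 1 + 1) → ℝ))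
      volume volume := (PiLp.volume_preserving_ofLp _).comp b.measurePreserving_repr
  set u : Fin (2 * m + 1 + 1) → ℝ := Fin.cons 1 (fun _ => ρ) with hu
  have hsub : {x : E | |⟪a, x⟫| ≤ 1 ∧ ‖x‖ ^ 2 - ⟪a, x⟫ ^ 2 ≤ ρ ^ 2}
      ⊆ (fun x : E => (WithLp.ofLp (b.repr x) : Fin (2 * m + 1 + 1) → ℝ)) ⁻¹' Icc (-u) u := by
    rintro x ⟨h1, h2⟩
    have hs : ‖x‖ ^ 2 = ∑ i, ⟪b i, x⟫ ^ 2 := by
      rw [← b.sum_sq_norm_inner_right x]
      exact Finset.sum_congr rfl fun i _ => by rw [Real.norm_eq_abs, sq_abs]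
    rw [Fin.sum_univ_succ, hb0] at hs
    have hc : ∀ i, (b.repr x) i = ⟪b i, x⟫ := fun i => b.repr_apply_apply x i
    have key : ∀ i, |⟪b i, x⟫| ≤ u i := by
      intro i
      refine Fin.cases ?_ (fun j => ?_) i
      · rw [hb0]; simpa [hu] using h1
      · have : ⟪b j.succ, x⟫ ^ 2 ≤ ∑ i : Fin (2 * m + 1), ⟪b i.succ, x⟫ ^ 2 :=
          Finset.single_le_sum (f := fun i : Fin (2 * m + 1) => ⟪b i.succ, x⟫ ^ 2)
            (fun i _ => sq_nonneg _) (Finset.mem_univ j)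
        simp only [hu, Fin.cons_succ]
        exact abs_le_of_sq_le_sq (by linarith) hρ
    simp only [mem_preimage, mem_Icc, Pi.le_def, Pi.neg_apply]
    exact ⟨fun i => by rw [hc]; exact (abs_le.1 (key i)).1,
      fun i => by rw [hc]; exact (abs_le.1 (key i)).2⟩
  calc (volume : Measure E) {x | |⟪a, x⟫| ≤ 1 ∧ ‖x‖ ^ 2 - ⟪a, x⟫ ^ 2 ≤ ρ ^ 2}
      ≤ volume ((fun x : E => (WithLp.ofLp (b.repr x) : Fin (2 * m + 1 + 1) → ℝ)) ⁻¹'
          Icc (-u) u) := measure_mono hsub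
    _ = volume (Icc (-u) u) := hmp.measure_preimage measurableSet_Icc.nullMeasurableSet
    _ = ENNReal.ofReal 2 * ENNReal.ofReal (2 * ρ) ^ (2 * m + 1) := by
        rw [Real.volume_Icc_pi, Fin.prod_univ_succ]
        simp only [hu, Pi.neg_apply, Fin.cons_zero, Fin.cons_succ, Finset.prod_const,
          Finset.card_univ, Fintype.card_fin]
        congr 2
        · norm_num
        · congr 1; ring

/-- the measure of a cap around `-a`. -/
private lemma pu11_cap [FiniteDimensional ℝ E] [MeasurableSpace E] [BorelSpace E]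
    (m : ℕ) (hfr : finrank ℝ E = 2 * m + 2) {a : E} (ha : ‖a‖ = 1) {ρ : ℝ} (hρ : 0 ≤ ρ) :
    (volume : Measure E).toSphere {u : sphere (0 : E) 1 | 1 + ⟪a, (u : E)⟫ < ρ ^ 2 / 2}
      ≤ (2 * m + 2 : ℕ) * (ENNReal.ofReal 2 * ENNReal.ofReal (2 * ρ) ^ (2 * m + 1)) := by
  have hms : MeasurableSet {u : sphere (0 : E) 1 | 1 + ⟪a, (u : E)⟫ < ρ ^ 2 / 2} := by
    refine measurableSet_lt ?_ measurable_const
    fun_prop
  rw [Measure.toSphere_apply' _ hms, hfr]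
  gcongr
  refine (measure_mono ?_).trans (pu11_cyl m hfr ha hρ)
  rintro x ⟨r, hr, y, ⟨u, hu, rfl⟩, rfl⟩
  have hu1 : ‖(u : E)‖ = 1 := by simp
  have ht : |⟪a, (u : E)⟫| ≤ 1 := by
    have := abs_real_inner_le_norm a (u : E)
    rwa [ha, hu1, mul_one] at this
  have h1 := (abs_le.1 ht).1
  have h2 := (abs_le.1 ht).2
  simp only [mem_ofPred_eq] at hu
  have hr0 : 0 < r := hr.1
  have hr1 : r < 1 := hr.2
  simp only [mem_ofPred_eq]
  rw [real_inner_smul_right, norm_smul, hu1, mul_one, Real.norm_eq_abs, abs_mul, abs_of_pos hr0]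
  refine ⟨by nlinarith [abs_nonneg ⟪a, (u : E)⟫], ?_⟩
  have e : r ^ 2 - (r * ⟪a, (u : E)⟫) ^ 2
      = r ^ 2 * ((1 + ⟪a, (u : E)⟫) * (1 - ⟪a, (u : E)⟫)) := by ring
  rw [e]
  have h3 : (1 + ⟪a, (u : E)⟫) * (1 - ⟪a, (u : E)⟫) ≤ ρ ^ 2 := by nlinarith
  have h4 : 0 ≤ (1 + ⟪a, (u : E)⟫) * (1 - ⟪a, (u : E)⟫) :=
    mul_nonneg (by linarith) (by linarith)
  exact (mul_le_of_le_one_left h4 (pow_le_one₀ hr0.le hr1.le)).trans h3

/-- pointwise bound by a dyadic sum. -/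
private lemma pu11_pt (m : ℕ) (hm : 1 ≤ m) {y : ℝ} (h0 : 0 ≤ y) (h2 : y ≤ 2) :
    ENNReal.ofReal ((y ^ m)⁻¹) ≤ ∑' k : ℕ, (if y < (4 * (1 / 2) ^ k) ^ 2 / 2 then
      ENNReal.ofReal (4 ^ (k * m)) else 0) := by
  rcases h0.eq_or_lt with rfl | hy
  · simp [zero_pow (by omega : m ≠ 0)]
  · -- choose k minimal with 4^(-k) ≤ y
    have hex : ∃ k : ℕ, (1 / 4 : ℝ) ^ k ≤ y := by
      obtain ⟨k, hk⟩ := exists_pow_lt_of_lt_one hy (by norm_num : (1 / 4 : ℝ) < 1)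
      exact ⟨k, hk.le⟩
    classical
    set k := Nat.find hex with hk
    have hk1 : (1 / 4 : ℝ) ^ k ≤ y := Nat.find_spec hex
    have hk2 : y < (4 * (1 / 2) ^ k) ^ 2 / 2 := by
      have e : ((4 : ℝ) * (1 / 2) ^ k) ^ 2 / 2 = 8 * (1 / 4) ^ k := by
        rw [mul_pow, ← pow_mul, mul_comm k 2, pow_mul]; norm_num; ring
      rw [e]
      rcases Nat.eq_zero_or_pos k with h | h
      · rw [h]; norm_num; linarith
      · have h3 : ¬ (1 / 4 : ℝ) ^ (k - 1) ≤ y := Nat.find_min hex (by omega)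
        have h4 : (1 / 4 : ℝ) ^ (k - 1) = 4 * (1 / 4) ^ k := by
          obtain ⟨j, hj⟩ : ∃ j, k = j + 1 := ⟨k - 1, by omega⟩
          rw [hj]; simp only [Nat.add_sub_cancel]; rw [pow_succ]; ring
        rw [h4] at h3
        have h5 : (0 : ℝ) < (1 / 4) ^ k := by positivity
        linarith [not_le.1 h3]
    refine le_trans ?_ (ENNReal.le_tsum k)
    rw [if_pos hk2]
    apply ENNReal.ofReal_le_ofReal
    rw [pow_mul, ← inv_pow]
    have h6 : (0 : ℝ) < (1 / 4) ^ k := by positivity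
    refine pow_le_pow_left₀ (by positivity) ?_ m
    rw [inv_le_comm₀ hy (by positivity)]
    calc ((4 : ℝ) ^ k)⁻¹ = (1 / 4) ^ k := by rw [one_div, inv_pow]
      _ ≤ y := hk1

/-- **PU-11.** -/
theorem lintegral_pow_lt_top [FiniteDimensional ℝ E] [MeasurableSpace E] [BorelSpace E]
    (m : ℕ) (hm : 1 ≤ m) (hfr : finrank ℝ E = 2 * m + 2) {a : E} (ha : ‖a‖ = 1) :
    ∫⁻ u : sphere (0 : E) 1, ENNReal.ofReal (((1 + ⟪a, (u : E)⟫) ^ m)⁻¹)
      ∂(volume : Measure E).toSphere < ⊤ := by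
  have hms : ∀ ρ : ℝ, MeasurableSet {u : sphere (0 : E) 1 | 1 + ⟪a, (u : E)⟫ < ρ ^ 2 / 2} := by
    intro ρ
    refine measurableSet_lt ?_ measurable_const
    fun_prop
  set σ := (volume : Measure E).toSphere with hσ
  have h1 : ∫⁻ u : sphere (0 : E) 1, ENNReal.ofReal (((1 + ⟪a, (u : E)⟫) ^ m)⁻¹) ∂σ
      ≤ ∫⁻ u : sphere (0 : E) 1, ∑' k : ℕ, ({u : sphere (0 : E) 1 | 1 + ⟪a, (u : E)⟫
          < (4 * (1 / 2) ^ k) ^ 2 / 2}.indicator (fun _ => ENNReal.ofReal (4 ^ (k * m))) u) ∂σ := by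
    refine lintegral_mono fun u => ?_
    have hu1 : ‖(u : E)‖ = 1 := by simp
    have ht : |⟪a, (u : E)⟫| ≤ 1 := by
      have := abs_real_inner_le_norm a (u : E)
      rwa [ha, hu1, mul_one] at this
    refine (pu11_pt m hm (by linarith [(abs_le.1 ht).1]) (by linarith [(abs_le.1 ht).2])).trans
      (le_of_eq ?_)
    refine tsum_congr fun k => ?_
    simp only [indicator_apply, mem_ofPred_eq]
  refine h1.trans_lt ?_
  rw [lintegral_tsum fun k => ((measurable_const.indicator (hms _))).aemeasurable]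
  have h2 : ∀ k : ℕ, ∫⁻ u : sphere (0 : E) 1, ({u : sphere (0 : E) 1 | 1 + ⟪a, (u : E)⟫
          < (4 * (1 / 2) ^ k) ^ 2 / 2}.indicator (fun _ => ENNReal.ofReal (4 ^ (k * m))) u) ∂σ
      ≤ ((2 * m + 2 : ℕ) * ENNReal.ofReal 2 * ENNReal.ofReal (8 ^ (2 * m + 1)))
        * ENNReal.ofReal ((1 / 2) ^ k) := by
    intro k
    rw [lintegral_indicator (hms _), setLIntegral_const]
    have h3 := pu11_cap m hfr ha (ρ := 4 * (1 / 2) ^ k) (by positivity)
    calc ENNReal.ofReal (4 ^ (k * m)) * σ {u : sphere (0 : E) 1 | 1 + ⟪a, (u : E)⟫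
          < (4 * (1 / 2) ^ k) ^ 2 / 2}
        ≤ ENNReal.ofReal (4 ^ (k * m)) * ((2 * m + 2 : ℕ) * (ENNReal.ofReal 2
            * ENNReal.ofReal (2 * (4 * (1 / 2) ^ k)) ^ (2 * m + 1))) := by gcongr
      _ = (2 * m + 2 : ℕ) * ENNReal.ofReal 2 * (ENNReal.ofReal (4 ^ (k * m))
            * ENNReal.ofReal (2 * (4 * (1 / 2) ^ k)) ^ (2 * m + 1)) := by ring
      _ = (2 * m + 2 : ℕ) * ENNReal.ofReal 2 * (ENNReal.ofReal (8 ^ (2 * m + 1))
            * ENNReal.ofReal ((1 / 2) ^ k)) := by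
          congr 1
          rw [← ENNReal.ofReal_pow (by positivity), ← ENNReal.ofReal_mul (by positivity),
            ← ENNReal.ofReal_mul (by positivity)]
          congr 1
          have e1 : (2 : ℝ) * (4 * (1 / 2) ^ k) = 8 * (1 / 2) ^ k := by ring
          have e2 : ((4 : ℝ)) ^ (k * m) = 2 ^ (k * (2 * m)) := by
            rw [show (4 : ℝ) = 2 ^ 2 by norm_num, ← pow_mul]; congr 1; ring
          rw [e1, mul_pow, e2, ← pow_mul, mul_add, pow_add, mul_one]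
          have e3 : (2 : ℝ) ^ (k * (2 * m)) * (1 / 2) ^ (k * (2 * m)) = 1 := by
            rw [← mul_pow]; norm_num
          linear_combination (8 ^ (2 * m + 1) * (1 / 2) ^ k) * e3
      _ = _ := by ring
  refine (ENNReal.tsum_le_tsum h2).trans_lt ?_
  rw [ENNReal.tsum_mul_left]
  refine ENNReal.mul_lt_top ?_ ?_
  · refine ENNReal.mul_lt_top (ENNReal.mul_lt_top ?_ ENNReal.ofReal_lt_top) ENNReal.ofReal_lt_top
    exact ENNReal.natCast_lt_top _
  · rw [← ENNReal.ofReal_tsum_of_nonneg (fun k => by positivity) summable_geometric_two]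
    exact ENNReal.ofReal_lt_top

end Pool.Agent.Helper19.PU
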